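import Mathlib

set_option autoImplicit false

/-!
# Complements of zero sets of entire functions, and Fatou-Bieberbach domains
-/

open Set Metric Filter Topology

namespace Pool.Agent.H39FB

/-- `t ^ k`, `k ≥ 1`, has no continuous logarithm on a circle about `0`. -/
theorem no_log (k : ℕ) (hk : 1 ≤ k) (r : ℝ) (hr : 0 < r) (m : ℂ → ℂ)
    (hm : ContinuousOn m (sphere (0 : ℂ) r))
    (he : ∀ t ∈ sphere (0 : ℂ) r, Complex.exp (m t) = t ^ k) : False := by
  have hpi := Real.pi_pos
  let c : ℝ → ℂ := fun θ => (r : ℂ) * Complex.exp (θ * Complex.I)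
  have hc : Continuous c := by fun_prop
  have hcs : ∀ θ, c θ ∈ sphere (0 : ℂ) r := by
    intro θ
    rw [mem_sphere_zero_iff_norm]
    simp only [c, norm_mul, Complex.norm_exp_ofReal_mul_I, mul_one]
    rw [Complex.norm_real, Real.norm_of_nonneg hr.le]
  let d : ℝ → ℂ := fun θ => m (c θ) - k * (θ * Complex.I) - k * (Real.log r : ℂ)
  have hd : Continuous d := by
    have h1 : Continuous fun θ => m (c θ) := hm.comp_continuous hc hcs
    have h2 : Continuous fun θ : ℝ => (k : ℂ) * ((θ : ℂ) * Complex.I) := by fun_prop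
    exact (h1.sub h2).sub continuous_const
  have hd1 : ∀ θ, ∃ j : ℤ, d θ = j * (2 * Real.pi * Complex.I) := by
    intro θ
    rw [← Complex.exp_eq_one_iff]
    have h1 : Complex.exp (Real.log r : ℂ) = r := by
      rw [← Complex.ofReal_exp, Real.exp_log hr]
    have h2 : Complex.exp (d θ) = Complex.exp (m (c θ)) /
        (Complex.exp (θ * Complex.I) ^ k * Complex.exp (Real.log r : ℂ) ^ k) := by
      simp only [d]
      rw [Complex.exp_sub, Complex.exp_sub, Complex.exp_nat_mul, Complex.exp_nat_mul, div_div]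
    rw [h2, he _ (hcs θ), h1]
    simp only [c]
    rw [mul_pow, mul_comm]
    apply div_self
    have := Complex.exp_ne_zero (θ * Complex.I)
    have h3 : (r : ℂ) ≠ 0 := by exact_mod_cast hr.ne'
    positivity
  have h2pi : c (2 * Real.pi) = c 0 := by
    simp only [c]
    push_cast
    rw [Complex.exp_two_pi_mul_I, zero_mul, Complex.exp_zero]
  let f : ℝ → ℝ := fun θ => (d θ).im / (2 * Real.pi)
  have hf : Continuous f := by
    have : Continuous fun θ => (d θ).im := Complex.continuous_im.comp hd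
    exact this.div_const _
  have hfint : ∀ θ, ∃ j : ℤ, f θ = j := by
    intro θ
    obtain ⟨j, hj⟩ := hd1 θ
    refine ⟨j, ?_⟩
    simp only [f]
    rw [hj]
    have : ((j : ℂ) * (2 * Real.pi * Complex.I)).im = j * (2 * Real.pi) := by
      simp
    rw [this]
    field_simp
  have hdiff : f (2 * Real.pi) = f 0 - k := by
    simp only [f, d]
    rw [h2pi]
    simp
    field_simp
  obtain ⟨j0, hj0⟩ := hfint 0
  have hk' : (1 : ℝ) ≤ k := by exact_mod_cast hk
  have hmem : (j0 : ℝ) - 1 / 2 ∈ Set.Icc (f (2 * Real.pi)) (f 0) := by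
    rw [hdiff, hj0]
    constructor <;> linarith
  have himg := intermediate_value_Icc' (by positivity : (0 : ℝ) ≤ 2 * Real.pi) hf.continuousOn hmem
  obtain ⟨θ, _, hθ⟩ := himg
  obtain ⟨j, hj⟩ := hfint θ
  rw [hj] at hθ
  have h1 : (2 * j : ℝ) = 2 * j0 - 1 := by linarith
  have h2 : (2 * j : ℤ) = 2 * j0 - 1 := by exact_mod_cast h1
  omega

/-- An entire function of one variable that is not zero at `1` and vanishes at `0` has no
continuous logarithm on its set of non-zeros. -/
theorem no_log_entire (g : ℂ → ℂ) (hg : Differentiable ℂ g) (h0 : g 0 = 0) (a : ℂ) (ha : g a ≠ 0)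
    (l : ℂ → ℂ) (hl : ContinuousOn l {t | g t ≠ 0})
    (he : ∀ t, g t ≠ 0 → Complex.exp (l t) = g t) : False := by
  have hga : AnalyticAt ℂ g 0 := hg.analyticAt 0
  have hgn : ¬ ∀ᶠ z in 𝓝 (0 : ℂ), g z = 0 := by
    intro h
    have h1 : AnalyticOnNhd ℂ g univ := fun z _ => hg.analyticAt z
    have h2 := h1.eqOn_zero_of_preconnected_of_eventuallyEq_zero isPreconnected_univ
      (mem_univ 0) h
    exact ha (h2 (mem_univ a))
  obtain ⟨k, u, hu, hu0, hev⟩ := hga.exists_eventuallyEq_pow_smul_nonzero_iff.2 hgn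
  have hk : 1 ≤ k := by
    rcases Nat.eq_zero_or_pos k with h | h
    · exfalso
      have := hev.self_of_nhds
      rw [h0, h] at this
      simp at this
      exact hu0 this.symm
    · exact h
  -- a ball on which everything is good
  have hslit : ∀ᶠ z in 𝓝 (0 : ℂ), u z / u 0 ∈ Complex.slitPlane := by
    have h1 : ContinuousAt (fun z => u z / u 0) 0 := hu.continuousAt.div_const _
    apply h1.eventually_mem
    apply Complex.isOpen_slitPlane.mem_nhds
    rw [div_self hu0]
    exact Complex.one_mem_slitPlane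
  have hcont : ∀ᶠ z in 𝓝 (0 : ℂ), ContinuousAt u z := hu.eventually_continuousAt
  have hall := (hev.and (hslit.and hcont))
  obtain ⟨ρ, hρ, hball⟩ := Metric.eventually_nhds_iff_ball.1 hall
  have hr : 0 < ρ / 2 := by positivity
  have hsub : ∀ t ∈ sphere (0 : ℂ) (ρ / 2), t ∈ ball (0 : ℂ) ρ := by
    intro t ht
    rw [mem_sphere_zero_iff_norm] at ht
    rw [mem_ball_zero_iff, ht]
    linarith
  have ht0 : ∀ t ∈ sphere (0 : ℂ) (ρ / 2), t ≠ 0 := by
    intro t ht h
    rw [mem_sphere_zero_iff_norm, h, norm_zero] at ht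
    linarith
  have hune : ∀ t ∈ sphere (0 : ℂ) (ρ / 2), u t ≠ 0 := by
    intro t ht h
    have := (hball t (hsub t ht)).2.1
    rw [h, zero_div] at this
    exact Complex.slitPlane_ne_zero this rfl
  have hgt : ∀ t ∈ sphere (0 : ℂ) (ρ / 2), g t = t ^ k * u t := by
    intro t ht
    have := (hball t (hsub t ht)).1
    rw [this]
    simp
  have hgne : ∀ t ∈ sphere (0 : ℂ) (ρ / 2), g t ≠ 0 := by
    intro t ht
    rw [hgt t ht]
    exact mul_ne_zero (pow_ne_zero _ (ht0 t ht)) (hune t ht)
  apply no_log k hk (ρ / 2) hr (fun t => l t - (Complex.log (u t / u 0) + Complex.log (u 0)))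
  · apply ContinuousOn.sub
    · exact hl.mono (fun t ht => hgne t ht)
    · apply ContinuousOn.add _ continuousOn_const
      intro t ht
      have h1 := (hball t (hsub t ht)).2
      exact ((h1.2.div_const (u 0)).clog h1.1).continuousWithinAt
  · intro t ht
    rw [Complex.exp_sub, he t (hgne t ht), Complex.exp_add,
      Complex.exp_log (div_ne_zero (hune t ht) hu0), Complex.exp_log hu0, hgt t ht,
      div_mul_cancel₀ _ hu0, mul_div_assoc, div_self (hune t ht), mul_one]


variable {n : ℕ}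

/-- the complement of the zero set of an entire function is path connected -/
theorem isPathConnected_ne_zero (q : (Fin n → ℂ) → ℂ) (hq : Differentiable ℂ q)
    (x₀ : Fin n → ℂ) (hx₀ : q x₀ ≠ 0) : IsPathConnected {z | q z ≠ 0} := by
  refine ⟨x₀, hx₀, ?_⟩
  intro y hy
  let ell : ℂ → (Fin n → ℂ) := fun t => x₀ + t • (y - x₀)
  have hell : Differentiable ℂ ell := by
    show Differentiable ℂ (fun t : ℂ => x₀ + t • (y - x₀))
    fun_prop
  let g : ℂ → ℂ := fun t => q (ell t)
  have hg : Differentiable ℂ g := hq.comp hell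
  have hg0 : g 0 ≠ 0 := by
    simpa [g, ell] using hx₀
  have hg1 : g 1 ≠ 0 := by
    have : g 1 = q y := by simp [g, ell]
    rw [this]
    exact hy
  have h1 : AnalyticOnNhd ℂ g univ := fun z _ => hg.analyticAt z
  have h2 := h1.preimage_zero_mem_codiscrete hg0
  rw [mem_codiscrete'] at h2
  have hcount : (g ⁻¹' {0}ᶜ)ᶜ.Countable := by
    have := h2.2.to_subtype
    rw [← Set.countable_coe_iff]
    exact countable_of_Lindelof_of_discrete
  have h3 := hcount.isPathConnected_compl_of_one_lt_rank (by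
    rw [Complex.rank_real_complex]; exact Cardinal.one_lt_two)
  rw [compl_compl] at h3
  have h4 : JoinedIn (g ⁻¹' {0}ᶜ) 0 1 := h3.joinedIn 0 hg0 1 hg1
  have h5 := (h4.map hell.continuous).mono (V := {z | q z ≠ 0}) (by
    rintro _ ⟨t, ht, rfl⟩
    exact ht)
  have e0 : ell 0 = x₀ := by simp [ell]
  have e1 : ell 1 = y := by simp [ell]
  rwa [e0, e1] at h5

/-- If `Ω` is a Fatou-Bieberbach domain on which the entire function `q` has no zero, but `q` has
a zero somewhere, then `Ω` is not the whole of `{q ≠ 0}`. -/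
theorem ne_complement (Ω : Set (Fin n → ℂ)) (F G : (Fin n → ℂ) → (Fin n → ℂ))
    (hF : Differentiable ℂ F) (hG : DifferentiableOn ℂ G Ω) (hrange : Set.range F = Ω)
    (hGF : ∀ z, G (F z) = z) (q : (Fin n → ℂ) → ℂ) (hq : Differentiable ℂ q)
    (hq0 : ∀ z ∈ Ω, q z ≠ 0) (z₀ : Fin n → ℂ) (hz₀ : q z₀ = 0) :
    ∃ y, q y ≠ 0 ∧ y ∉ Ω := by
  by_contra hcon
  push Not at hcon
  have hcont : Continuous fun w => q (F w) := (hq.comp hF).continuous
  have hne : ∀ w, q (F w) ≠ 0 := fun w => hq0 _ (hrange ▸ mem_range_self w)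
  obtain ⟨H, hH, hHe⟩ := Complex.exists_continuousOn_eqOn_exp_comp
    (X := Fin n → ℂ) (U := univ) (by
      have hc : ContractibleSpace (univ : Set (Fin n → ℂ)) :=
        (convex_univ (𝕜 := ℝ)).contractibleSpace ⟨0, mem_univ _⟩
      show SimplyConnectedSpace (univ : Set (Fin n → ℂ))
      infer_instance) isOpen_univ hcont.continuousOn (by
      rintro ⟨w, _, hw⟩
      exact hne w hw)
  have hx₀ : F 0 ∈ Ω := hrange ▸ mem_range_self 0
  let v : Fin n → ℂ := F 0 - z₀
  let ell : ℂ → (Fin n → ℂ) := fun t => z₀ + t • v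
  have hell : Differentiable ℂ ell := by
    show Differentiable ℂ (fun t : ℂ => z₀ + t • v)
    fun_prop
  have hg : Differentiable ℂ (fun t => q (ell t)) := hq.comp hell
  have hFG : ∀ z ∈ Ω, F (G z) = z := by
    intro z hz
    rw [← hrange] at hz
    obtain ⟨w, rfl⟩ := hz
    rw [hGF]
  apply no_log_entire (fun t => q (ell t)) hg (by simp [ell, hz₀]) 1 (by
      have : ell 1 = F 0 := by simp [ell, v]
      show q (ell 1) ≠ 0
      rw [this]
      exact hq0 _ hx₀) (fun t => H (G (ell t)))
  · apply (continuousOn_univ.1 hH).comp_continuousOn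
    apply hG.continuousOn.comp hell.continuous.continuousOn
    intro t ht
    exact hcon _ ht
  · intro t ht
    have h1 := hHe (mem_univ (G (ell t)))
    simp only [Function.comp_apply] at h1
    rw [h1, hFG _ (hcon _ ht)]

/-- the complement of the zero set of an entire function is holomorphically convex -/
theorem holo_convex (q : (Fin n → ℂ) → ℂ) (hq : Differentiable ℂ q)
    (K : Set (Fin n → ℂ)) (hK : IsCompact K) (hKq : K ⊆ {z | q z ≠ 0}) :
    IsCompact {z | z ∈ {z | q z ≠ 0} ∧ ∀ f : (Fin n → ℂ) → ℂ, DifferentiableOn ℂ f {z | q z ≠ 0} →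
      ∀ c : ℝ, (∀ w ∈ K, ‖f w‖ ≤ c) → ‖f z‖ ≤ c} := by
  have hinv : DifferentiableOn ℂ (fun z => (q z)⁻¹) {z | q z ≠ 0} :=
    fun z hz => ((hq z).inv hz).differentiableWithinAt
  obtain ⟨R, hR⟩ := hK.exists_bound_of_continuousOn (f := fun z => z) continuousOn_id
  obtain ⟨C, hC⟩ := hK.exists_bound_of_continuousOn (hinv.continuousOn.mono hKq)
  set R' := max R 0 with hR'
  set C' := max C 1 with hC'
  have hC0 : 0 < C' := lt_of_lt_of_le one_pos (le_max_right _ _)
  let A : Set (Fin n → ℂ) := closedBall 0 R' ∩ {z | 1 / C' ≤ ‖q z‖}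
  have hA : IsCompact A := (isCompact_closedBall 0 R').inter_right
    (isClosed_le continuous_const hq.continuous.norm)
  have hAq : A ⊆ {z | q z ≠ 0} := by
    rintro z ⟨_, hz⟩ h0
    rw [mem_ofPred_eq, h0, norm_zero] at hz
    have : 0 < 1 / C' := by positivity
    linarith
  have hset : {z | z ∈ {z | q z ≠ 0} ∧ ∀ f : (Fin n → ℂ) → ℂ,
      DifferentiableOn ℂ f {z | q z ≠ 0} → ∀ c : ℝ, (∀ w ∈ K, ‖f w‖ ≤ c) → ‖f z‖ ≤ c} =
      A ∩ ⋂ (f : (Fin n → ℂ) → ℂ) (_ : DifferentiableOn ℂ f {z | q z ≠ 0}) (c : ℝ)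
        (_ : ∀ w ∈ K, ‖f w‖ ≤ c), A ∩ f ⁻¹' closedBall 0 c := by
    ext z
    simp only [mem_ofPred_eq, mem_inter_iff, mem_iInter]
    constructor
    · rintro ⟨hz, hf⟩
      have hzA : z ∈ A := by
        constructor
        · rw [mem_closedBall_zero_iff, pi_norm_le_iff_of_nonneg (le_max_right _ _)]
          intro i
          apply hf (fun z => z i) (by fun_prop) R'
          intro w hw
          exact (norm_le_pi_norm w i).trans ((hR w hw).trans (le_max_left _ _))
        · have := hf _ hinv C' (fun w hw => (hC w hw).trans (le_max_left _ _))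
          rw [norm_inv] at this
          have hq' : 0 < ‖q z‖ := norm_pos_iff.2 hz
          show 1 / C' ≤ ‖q z‖
          rw [div_le_iff₀ hC0]
          rw [inv_le_iff_one_le_mul₀ hq'] at this
          linarith
      exact ⟨hzA, fun f hf' c hc => ⟨hzA, by
        rw [mem_preimage, mem_closedBall_zero_iff]; exact hf f hf' c hc⟩⟩
    · rintro ⟨hzA, hz⟩
      refine ⟨hAq hzA, fun f hf' c hc => ?_⟩
      have := (hz f hf' c hc).2
      rwa [mem_preimage, mem_closedBall_zero_iff] at this
  rw [hset]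
  apply hA.inter_right
  apply isClosed_iInter; intro f
  apply isClosed_iInter; intro hf
  apply isClosed_iInter; intro c
  apply isClosed_iInter; intro _
  exact (hf.continuousOn.mono hAq).preimage_isClosed_of_isClosed hA.isClosed isClosed_closedBall

end Pool.Agent.H39FB
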